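import Pool.Agent.K.MP_e0d2b2_an.C0

universe u

theorem Pool.Agent.Results.MP_e0d2b2_an.BestConstant.result : IsLeast {C : ℝ | 0 < C ∧
    ∀ (X : Type u) [NormedAddCommGroup X] [NormedSpace ℂ X] [CompleteSpace X] [Nontrivial X]
      (T : X →L[ℂ] X) (M : ℝ), spectrum ℂ T ⊆ Metric.ball 0 1 →
      (∀ z : ℂ, 1 ≤ ‖z‖ → ‖resolvent T z‖ ≤ M) →
      Summable (fun j : ℕ => ‖T ^ (j + 1)‖) ∧ ∑' j : ℕ, ‖T ^ (j + 1)‖ ≤ C * M * (M - 1)}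
    (Real.exp 1) :=
  Pool.Agent.P.MP_e0d2b2_an.main
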