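import Pool.Agent.P.MP_e0d2b2_an.XWords

universe u

theorem Pool.Agent.Results.MP_e0d2b2_an.ExactPowers.result (M : ℝ) (hM : 1 < M) (s : ℕ → ℝ)
    (hs : ∀ j : ℕ, s j = M ^ (⌊((j + 1 : ℕ) : ℝ) / (M - 1)⌋₊ + 1) /
      ((j + 1 + ⌊((j + 1 : ℕ) : ℝ) / (M - 1)⌋₊).choose (j + 1) : ℝ)) :
    Summable s ∧ IsGreatest {b : ℕ → ℝ | ∃ (X : Type u) (_ : NormedAddCommGroup X)
      (_ : NormedSpace ℂ X) (_ : CompleteSpace X) (T : X →L[ℂ] X),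
      spectrum ℂ T ⊆ Metric.ball 0 1 ∧ (∀ z : ℂ, 1 ≤ ‖z‖ → ‖resolvent T z‖ ≤ M) ∧
      b = fun j : ℕ => ‖T ^ (j + 1)‖} s := by
  have e : s = fun j : ℕ => (E0X.q M (j + 1) ⌊((j + 1 : ℕ) : ℝ) / (M - 1)⌋₊)⁻¹ := by
    funext j; rw [hs, E0X.q, inv_div]
  subst e
  have up : ∀ (X : Type u) [NormedAddCommGroup X] [NormedSpace ℂ X] [CompleteSpace X]
      (T : X →L[ℂ] X), spectrum ℂ T ⊆ Metric.ball 0 1 →
      (∀ z : ℂ, 1 ≤ ‖z‖ → ‖resolvent T z‖ ≤ M) → ∀ j k : ℕ, ‖T ^ j‖ ≤ (E0X.q M j k)⁻¹ :=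
    fun X _ _ _ T h1 h2 j k => E0X.upper h1 h2 j k
  refine ⟨E0X.summable_q hM, ?_, ?_⟩
  · have hc : CompleteSpace (E0X.Sp.{u} hM) :=
      (Submodule.isClosed_topologicalClosure _).completeSpace_coe
    have h1 : spectrum ℂ (E0X.op.{u} hM none) ⊆ Metric.ball 0 1 := fun z hz => by
      by_contra h
      rw [mem_ball_zero_iff, not_lt] at h
      exact hz (E0X.op_res hM h).1
    have h2 : ∀ z : ℂ, 1 ≤ ‖z‖ → ‖resolvent (E0X.op.{u} hM none) z‖ ≤ M :=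
      fun z hz => (E0X.op_res hM hz).2
    refine ⟨E0X.Sp.{u} hM, inferInstance, inferInstance, hc, E0X.op hM none, h1, h2, ?_⟩
    funext j
    exact le_antisymm (E0X.op_lower hM _ j.succ_ne_zero)
      (up (E0X.Sp.{u} hM) (E0X.op hM none) h1 h2 _ _)
  · rintro _ ⟨X, _, _, _, T, h1, h2, rfl⟩ j
    exact up X T h1 h2 _ _
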